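import Pool.Agent.helper55.ZI.Spec2

namespace Pool.Agent.helper53.ZI

open Pool.Agent.ZI

universe u

theorem OPP : OPP_stmt.{u} := by
  intro R _ S h
  refine ⟨?_, ?_, ?_⟩
  · intro a b hab
    exact Subring.op_le_op_iff.mpr (h.mono hab)
  · intro n
    have := h.ss n
    exact (Subring.mopRingEquivOp (S n)).isSemisimpleRing
  · intro r
    obtain ⟨n, hn⟩ := h.cov r.unop
    exact ⟨n, hn⟩

end Pool.Agent.helper53.ZI
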